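import Pool.Agent.H32.SV.MainS

set_option autoImplicit false

/-!
# The Weinstock inequality for small and for thin convex domains of the sphere `S^n`, `n ≥ 3`, of any diameter

`Sp n` is the unit sphere `S^n` of `ℝ^(n+1)`, `sg (n+1)` its surface measure, `bs n` the `(n-1)`-dimensional Hausdorff
measure (Riemannian normalisation), `gball p R` the open geodesic ball, `sigma1` the first nonzero Steklov eigenvalue
(infimum of the Rayleigh quotients over the restrictions of `C^1` functions of `ℝ^(n+1)` with mean zero on the
boundary), `GConvex` geodesic convexity. `Weinstock Ω` says that `0 < |∂Ω| < |S^(n-1)|`, that exactly one `R` in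
`(0, π/2)` has `|∂B| = |∂Ω|` for the geodesic balls `B` of radius `R`, and that `σ₁(Ω) ≤ σ₁(B)` with equality if and
only if `Ω` is a geodesic ball.
-/

namespace Pool.Agent.H32.SV.Old.ThinDomains

open Pool.Agent.H62.SS
open scoped RealInnerProductSpace MeasureTheory ENNReal NNReal
open MeasureTheory Set Metric
open Pool.Agent.H62.WS (E sg cst)

/-- Let `Ω` be a geodesically convex domain of `S^n`, `n ≥ 3`, with closure in an open hemisphere, and suppose that
`(41n)^(n-1) |∂Ω| ≤ |S^(n-1)|` or `(24n)^3 |Ω| ≤ |∂Ω|`. Then `σ₁(Ω) ≤ σ₁(Ω*)`, where `Ω*` is the ball of radius less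
than `π/2` with the same boundary measure, with equality only for the geodesic balls. (In the second condition the
left hand side is multiplied by the measure `bs n` of a great sphere and the right hand side by the total mass of
`sg n`; both are `|S^(n-1)|`.) -/
theorem result (n : ℕ) (hn : 3 ≤ n) (Ω : Set (Sp n)) (hΩ : IsOpen Ω) (hne : Ω.Nonempty)
    (hc : GConvex Ω)
    (hw : ∃ w : Sp n, ∀ p ∈ closure Ω, 0 < ⟪(w : E (n + 1)), (p : E (n + 1))⟫)
    (hs : ∃ p : Sp n, (41 * (n : ℝ≥0∞)) ^ (n - 1) * bs n (frontier Ω) ≤
        bs n (frontier (gball p (Real.pi / 2))) ∨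
      (24 * (n : ℝ≥0∞)) ^ 3 * (sg (n + 1) Ω * bs n (frontier (gball p (Real.pi / 2)))) ≤
        sg n univ * bs n (frontier Ω)) :
    Pool.Agent.H32.SV.Weinstock Ω := by
  have hpi := Real.pi_pos
  have hp : ∀ p : Sp n, bs n (frontier (gball p (Real.pi / 2))) =
      bs n (frontier (gball (nor n) (Real.pi / 2))) := by
    intro p
    rw [frontier_gball (by omega) _ (by positivity) (by linarith),
      frontier_gball (by omega) _ (by positivity) (by linarith),
      bs_gsph (by omega) _ (by positivity) (by linarith),
      bs_gsph (by omega) _ (by positivity) (by linarith)]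
  obtain ⟨p, hs⟩ := hs
  rw [hp p] at hs
  rcases hs with hP | hV
  · exact Pool.Agent.H32.SV.main_perimeter hn hΩ hne hc hw hP
  · exact Pool.Agent.H32.SV.main_thin hn hΩ hne hc hw hV

end Pool.Agent.H32.SV.Old.ThinDomains
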